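import Pool.Agent.helper24.ISL.Spec

/-!
# Row isl:LM (MP_512a69_al)
-/

set_option autoImplicit false

namespace Pool.Agent.ISL

open Matrix Filter Topology

theorem LM_closed {n : ℕ} {F : Type} [NormedField F] (K : Subgroup (SL n F))
    (hK : IsClosed (K : Set (SL n F))) (M : ℕ → Mat n F) (L : Mat n F) (hM : ∀ᶠ i in atTop, InK K (M i))
    (hL : Tendsto M atTop (𝓝 L)) : InK K L := by
  have h1 := (Matrix.SpecialLinearGroup.isClosedEmbedding_val (n := Fin n) (R := F)).isClosedMap _ hK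
  have h2 : L ∈ (Subtype.val '' (K : Set (SL n F)) : Set (Mat n F)) := by
    refine h1.mem_of_tendsto hL (hM.mono ?_)
    rintro i ⟨k, hk, e⟩
    exact ⟨k, hk, e⟩
  obtain ⟨k, hk, e⟩ := h2
  exact ⟨k, hk, e⟩

theorem LM_rk {n : ℕ} (F : Type) [Field F] [CharZero F] (c θ : Fin n → ℚ) :
    cm F (rk c θ) = rk (cv F c) (cv F θ) := by
  ext i j
  rw [cm_apply]
  simp [rk, vecMulVec_apply, cv]

theorem LM_sm {n : ℕ} (F : Type) [Field F] [CharZero F] (x y : ℚ) (c θ : Fin n → ℚ) :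
    cm F (x • (1 + y • rk c θ)) = (x : F) • (1 + (y : F) • rk (cv F c) (cv F θ)) := by
  have e : ∀ (z : ℚ) (M : Mat n ℚ), cm F (z • M) = (z : F) • cm F M := by
    intro z M
    ext i j
    rw [cm_apply]
    simp [cm_apply]
  rw [e, map_add, map_one, e, LM_rk]

/-- the two limits -/
theorem LM_lim {n : ℕ} {F : Type} [NormedField F] (P : Mat n F) (t : ℕ → F) (ht : Tendsto t atTop (𝓝 0))
    (Z : ℕ → Mat n F) (Y : Mat n F) (hZ : Tendsto Z atTop (𝓝 Y)) :
    Tendsto (fun i => 1 + ((1 - P) + t i • P) * Z i * (t i • (1 - P) + P)) atTop (𝓝 (1 + (1 - P) * Y * P)) ∧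
    Tendsto (fun i => 1 + (t i • (1 - P) + P) * Z i * ((1 - P) + t i • P)) atTop (𝓝 (1 + P * Y * (1 - P))) := by
  have a1 : Tendsto (fun i => (1 - P) + t i • P) atTop (𝓝 ((1 - P) + (0 : F) • P)) :=
    tendsto_const_nhds.add (ht.smul tendsto_const_nhds)
  have a2 : Tendsto (fun i => t i • (1 - P) + P) atTop (𝓝 ((0 : F) • (1 - P) + P)) :=
    (ht.smul tendsto_const_nhds).add tendsto_const_nhds
  rw [zero_smul, add_zero] at a1
  rw [zero_smul, zero_add] at a2
  exact ⟨tendsto_const_nhds.add ((a1.mul hZ).mul a2), tendsto_const_nhds.add ((a2.mul hZ).mul a1)⟩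

theorem LM : LM_stmt := by
  intro n F _ _ H K hn hKc hN a c θ ha hna hD Y k Z hk hkZ hZ
  obtain ⟨hθc, hD⟩ := hD
  choose h hh e1 e2 using hD
  have haF : (a : F) ≠ 0 := by exact_mod_cast ha
  set P : Mat n F := rk (cv F c) (cv F θ) with hP
  set t : ℕ → F := fun i => (a : F) ^ (n * i) with ht
  have ht0 : ∀ i, t i ≠ 0 := fun i => pow_ne_zero _ haF
  have htl : Tendsto t atTop (𝓝 0) := by
    have h1 := tendsto_pow_atTop_nhds_zero_of_norm_lt_one hna
    refine h1.comp ?_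
    exact tendsto_id.const_mul_atTop' (by omega)
  have hA : ∀ i, ((cs F (h i) : SL n F) : Mat n F) = ((a : F) ^ i)⁻¹ • ((1 - P) + t i • P) := by
    intro i
    rw [cs_coe, e1 i, LM_sm, ← hP]
    congr 1
    · push_cast
      rfl
    · push_cast
      rw [sub_smul, one_smul]
      abel
  have hB : ∀ i, ((cs F (h i)⁻¹ : SL n F) : Mat n F) = (a : F) ^ i • ((t i)⁻¹ • (t i • (1 - P) + P)) := by
    intro i
    rw [cs_coe, e2 i, LM_sm, ← hP]
    congr 1
    · push_cast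
      rfl
    · push_cast
      rw [sub_smul, one_smul, smul_add, smul_smul, inv_mul_cancel₀ (ht0 i), one_smul]
      abel
  have hAB : ∀ i, ((cs F (h i) : SL n F) : Mat n F) * ((cs F (h i)⁻¹ : SL n F) : Mat n F) = 1 := by
    intro i
    rw [← Matrix.SpecialLinearGroup.coe_mul, ← map_mul, mul_inv_cancel, map_one,
      Matrix.SpecialLinearGroup.coe_one]
  have hBA : ∀ i, ((cs F (h i)⁻¹ : SL n F) : Mat n F) * ((cs F (h i) : SL n F) : Mat n F) = 1 := by
    intro i
    rw [← Matrix.SpecialLinearGroup.coe_mul, ← map_mul, inv_mul_cancel, map_one,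
      Matrix.SpecialLinearGroup.coe_one]
  have hai : ∀ i, (a : F) ^ i ≠ 0 := fun i => pow_ne_zero _ haF
  obtain ⟨l1, l2⟩ := LM_lim P t htl Z Y hZ
  have m1 : ∀ᶠ i in atTop, InK K (1 + ((1 - P) + t i • P) * Z i * (t i • (1 - P) + P)) := by
    refine hkZ.mono fun i hi => ?_
    refine ⟨cs F (h i) * k i * (cs F (h i))⁻¹, hN _ (hh i) _ (hk i), ?_⟩
    rw [← map_inv, Matrix.SpecialLinearGroup.coe_mul, Matrix.SpecialLinearGroup.coe_mul, hi, mul_add, add_mul,
      mul_one, hAB i]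
    congr 1
    rw [hA i, hB i]
    simp only [Matrix.smul_mul, Matrix.mul_smul, smul_smul]
    have hs : (a : F) ^ i * (t i)⁻¹ * ((a : F) ^ (n * i) * ((a : F) ^ i)⁻¹) = 1 := by
      have h1 := ht0 i
      have h2 := hai i
      have h3 : (a : F) ^ (n * i) = t i := rfl
      rw [h3]
      field_simp
    rw [hs, one_smul]
  have m2 : ∀ᶠ i in atTop, InK K (1 + (t i • (1 - P) + P) * Z i * ((1 - P) + t i • P)) := by
    refine hkZ.mono fun i hi => ?_
    refine ⟨cs F (h i)⁻¹ * k i * (cs F (h i)⁻¹)⁻¹, hN _ (inv_mem (hh i)) _ (hk i), ?_⟩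
    rw [← map_inv, inv_inv, Matrix.SpecialLinearGroup.coe_mul, Matrix.SpecialLinearGroup.coe_mul, hi, mul_add,
      add_mul, mul_one, hBA i]
    congr 1
    rw [hA i, hB i]
    simp only [Matrix.smul_mul, Matrix.mul_smul, smul_smul]
    have hs : ((a : F) ^ i)⁻¹ * ((a : F) ^ (n * i) * ((a : F) ^ i * (t i)⁻¹)) = 1 := by
      have h1 := ht0 i
      have h2 := hai i
      have h3 : (a : F) ^ (n * i) = t i := rfl
      rw [h3]
      field_simp
    rw [hs, one_smul]
  have r1 := LM_closed K hKc _ _ m1 l1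
  have r2 := LM_closed K hKc _ _ m2 l2
  refine ⟨?_, ?_⟩
  · have e3 : (1 - P) * Y * P = rk (Y *ᵥ cv F c - (cv F θ ⬝ᵥ (Y *ᵥ cv F c)) • cv F c) (cv F θ) := by
      rw [hP]
      unfold rk
      rw [mul_assoc, Matrix.mul_vecMulVec, Matrix.mul_vecMulVec, Matrix.sub_mulVec, Matrix.one_mulVec,
        Matrix.vecMulVec_mulVec]
      congr 2
      exact op_smul_eq_smul _ _
    rw [← e3]
    exact r1
  · have e3 : P * Y * (1 - P) = rk (cv F c) (cv F θ ᵥ* Y - ((cv F θ ᵥ* Y) ⬝ᵥ cv F c) • cv F θ) := by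
      rw [hP]
      unfold rk
      rw [Matrix.vecMulVec_mul, Matrix.vecMulVec_mul, Matrix.vecMul_sub, Matrix.vecMul_one,
        Matrix.vecMul_vecMulVec]
    rw [← e3]
    exact r2

end Pool.Agent.ISL
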