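import Pool.Agent.helper24.ISL.Spec

/-!
# Row isl:SEL (MP_512a69_al)
-/

set_option autoImplicit false

namespace Pool.Agent.ISL

open Matrix Filter Topology

theorem SEL_le (n : ℕ) (hn : 2 ≤ n) (l x : ℝ) (hl : 1 < l) (hln : l ^ n = l + 1) (hx : x ^ n ≤ x + 1) : x ≤ l := by
  by_contra h
  push Not at h
  obtain ⟨m, rfl⟩ : ∃ m, n = m + 1 := ⟨n - 1, by omega⟩
  have hm : m ≠ 0 := by omega
  have h0 : 0 < l := by linarith
  have h1 : 0 < x := by linarith
  have h2 : l ^ m < x ^ m := pow_lt_pow_left₀ h h0.le hm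
  rw [pow_succ] at hln hx
  have h3 : l ^ m * (x * l) < x ^ m * (x * l) := mul_lt_mul_of_pos_right h2 (mul_pos h1 h0)
  have h4 : x ^ m * x * l ≤ (x + 1) * l := mul_le_mul_of_nonneg_right hx h0.le
  have h5 : l ^ m * (x * l) = (l + 1) * x := by
    rw [← hln]
    ring
  have h6 : x ^ m * (x * l) = x ^ m * x * l := by ring
  rw [h5, h6] at h3
  nlinarith

theorem SEL : SEL_stmt := by
  intro n hn
  have hc : ContinuousOn (fun x : ℝ => x ^ n - x - 1) (Set.Icc 1 2) := by fun_prop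
  have h2 : (0 : ℝ) ∈ Set.Icc ((fun x : ℝ => x ^ n - x - 1) 1) ((fun x : ℝ => x ^ n - x - 1) 2) := by
    constructor
    · simp only
      norm_num
    · simp only
      have h4 : (2 : ℝ) ^ 2 ≤ 2 ^ n := pow_le_pow_right₀ (by norm_num) hn
      linarith
  obtain ⟨l, hl, hl0⟩ := intermediate_value_Icc (by norm_num : (1 : ℝ) ≤ 2) hc h2
  simp only at hl0
  have hln : l ^ n = l + 1 := by linarith
  have hl1 : 1 < l := by
    rcases lt_or_eq_of_le hl.1 with h | h
    · exact h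
    · rw [← h] at hln
      norm_num at hln
  refine ⟨l, hl1, hln, ?_⟩
  intro μ hμ hne
  have e1 : ‖μ‖ ^ n = ‖μ + 1‖ := by rw [← norm_pow, hμ]
  have e2 : ‖μ‖ ^ n ≤ ‖μ‖ + 1 := by
    rw [e1]
    have := norm_add_le μ 1
    rwa [norm_one] at this
  have e3 : ‖μ‖ ≤ l := SEL_le n hn l _ hl1 hln e2
  rcases lt_or_eq_of_le e3 with h | h
  · exact h
  · exfalso
    apply hne
    have e4 : ‖μ + 1‖ = l + 1 := by rw [← e1, h, hln]
    have e5 : ‖μ + 1‖ ^ 2 = (l + 1) ^ 2 := by rw [e4]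
    have e6 : ‖μ‖ ^ 2 = l ^ 2 := by rw [h]
    rw [Complex.sq_norm, Complex.normSq_apply] at e5 e6
    simp only [Complex.add_re, Complex.one_re, Complex.add_im, Complex.one_im, add_zero] at e5
    have e7 : μ.re = l := by nlinarith
    have e8 : μ.im = 0 := by
      rw [e7] at e6
      have : μ.im * μ.im = 0 := by linarith
      exact mul_self_eq_zero.mp this
    apply Complex.ext
    · rw [Complex.ofReal_re, e7]
    · rw [Complex.ofReal_im, e8]

end Pool.Agent.ISL
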